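import Pool.Agent.Q289.ZO.Main

/-!
# Zero-one law for absolute convergence of a stable supremum series

For every irrational `α` in `(0, 1) ∪ (1, 2)`, the double series converges absolutely for almost
every `ρ` in `(0, 1)` or for almost no `ρ` in `(0, 1)`.
-/

set_option autoImplicit false

open MeasureTheory

namespace Pool.Agent.Results.MP_8ec8f8_pr.ZeroOne

open Q289.ZO

/-- no irrational `α` answers Q1 positively -/
theorem result (α : ℝ) (hα : Irrational α) (h : α ∈ Set.Ioo (0 : ℝ) 1 ∪ Set.Ioo 1 2) :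
    volume {ρ | ρ ∈ Set.Ioo (0 : ℝ) 1 ∧ AbsConv α ρ} = 0 ∨
      volume {ρ | ρ ∈ Set.Ioo (0 : ℝ) 1 ∧ ¬ AbsConv α ρ} = 0 :=
  main hα h

end Pool.Agent.Results.MP_8ec8f8_pr.ZeroOne
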